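import Pool.Agent.H69.DI.All

/-!
MP_a37e4a_nt, DenseIntervals: for `ε, δ > 0` every interval `(x, x + y]`, `x ≥ x0`, `x ^ (2/5 + δ) ≤ y ≤ x`, contains at least
`y / (log x) ^ ε` cyclic numbers, and so the inequality of Q1 holds over at least `n ^ (2/5 + δ)` steps with `(log c) ^ ε` in
place of `log c`, for all large `n`.
-/

namespace Pool.Agent.Results.MP_a37e4a_nt.DenseIntervals

/-- `m` is a cyclic number: `gcd (m, φ m) = 1`. -/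
def CyclicNumber (m : ℕ) : Prop := Nat.gcd m (Nat.totient m) = 1

/-- The `n`-th cyclic number `c_n` in increasing order, for `n ≥ 1`: `c_1 = 1`, `c_2 = 2`, `c_3 = 3`, `c_4 = 5`
(`Nat.nth` counts from `0`). -/
noncomputable def cyclic (n : ℕ) : ℕ := Nat.nth CyclicNumber (n - 1)

theorem result :
    (∀ ε δ : ℝ, 0 < ε → 0 < δ → ∃ x0 : ℕ, ∀ x y : ℕ, x0 ≤ x → (x : ℝ) ^ (2 / 5 + δ) ≤ y → y ≤ x →
      (y : ℝ) / Real.log x ^ ε ≤ ({m : ℕ | CyclicNumber m ∧ x < m ∧ m ≤ x + y}.ncard : ℝ)) ∧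
    (∀ ε δ : ℝ, 0 < ε → 0 < δ → ∃ n0 : ℕ, ∀ n t : ℕ, n0 ≤ n → (n : ℝ) ^ (2 / 5 + δ) ≤ t →
      (n : ℝ) * (Real.log (cyclic (n + 1 + t)) - Real.log (cyclic (n + 1))) < t * Real.log (cyclic (n + 1)) ^ ε) :=
  ⟨Pool.Agent.H69.DI.dense2, Pool.Agent.H69.DI.steps⟩

end Pool.Agent.Results.MP_a37e4a_nt.DenseIntervals
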