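import Pool.Agent.H69.EA.Main

/-!
MP_a37e4a_nt, EarlierTerms: in every interval `(x, x + y]`, `x ^ (2/5 + δ) ≤ y ≤ x`, all but at most `C y exp (- (log x) ^ c)` of
the `n` with `c_n` in the interval satisfy `c_n ^ (1/(n-1)) < c_(m+1) ^ (1/m)` for ALL `1 ≤ m < n - 1` (cyclic numbers `c_n`):
almost every term of the sequence is smaller than all earlier terms.
-/

namespace Pool.Agent.Results.MP_a37e4a_nt.EarlierTerms

/-- `m` is a cyclic number: `gcd (m, φ m) = 1`. -/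
def CyclicNumber (m : ℕ) : Prop := Nat.gcd m (Nat.totient m) = 1

/-- The `n`-th cyclic number `c_n` in increasing order, for `n ≥ 1`: `c_1 = 1`, `c_2 = 2`, `c_3 = 3`, `c_4 = 5`
(`Nat.nth` counts from `0`). -/
noncomputable def cyclic (n : ℕ) : ℕ := Nat.nth CyclicNumber (n - 1)

theorem result :
    ∃ c : ℝ, 0 < c ∧ ∀ δ : ℝ, 0 < δ → ∃ C : ℝ, 0 < C ∧ ∀ x y : ℕ, 2 ≤ x →
      (x : ℝ) ^ (2 / 5 + δ) ≤ y → y ≤ x →
      ({n : ℕ | 2 ≤ n ∧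
        ¬ (∀ m : ℕ, 1 ≤ m → m + 1 < n →
          (cyclic n : ℝ) ^ (1 / ((n : ℝ) - 1)) < (cyclic (m + 1) : ℝ) ^ (1 / (m : ℝ))) ∧
        x < cyclic n ∧ cyclic n ≤ x + y}.ncard : ℝ) ≤ C * y * Real.exp (-(Real.log x) ^ c) :=
  Pool.Agent.H69.EA.rec4

end Pool.Agent.Results.MP_a37e4a_nt.EarlierTerms
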