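import Pool.Agent.H69.CU.Fin
import Pool.Agent.H69.CU.Gpa

/-!
# Cyclic numbers: short intervals, gaps, and Firoozbakht's inequality for all indices on the scale `n^(2/5) log n`
-/

set_option autoImplicit false

namespace Pool.Agent.Results.MP_a37e4a_nt.TwoFifths

/-- `m` is a cyclic number: `m > 0` and `gcd (m, φ(m)) = 1`. -/
def IsCyclicNumber (m : ℕ) : Prop := 0 < m ∧ Nat.gcd m (Nat.totient m) = 1

/-- `c n` is the `n`-th cyclic number, `n ≥ 1`: `c 1 = 1`, `c 2 = 2`, `c 3 = 3`, `c 4 = 5`, ... -/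
noncomputable def c (n : ℕ) : ℕ := Nat.nth IsCyclicNumber (n - 1)

theorem result :
    (∃ C : ℝ, 0 < C ∧ ∀ n m : ℕ, 2 ≤ n →
      (n : ℝ) + C * (n : ℝ) ^ (2 / 5 : ℝ) * Real.log n ≤ m →
        (c (m + 1) : ℝ) ^ (1 / (m : ℝ)) < (c (n + 1) : ℝ) ^ (1 / (n : ℝ))) ∧
    (∃ C : ℝ, 0 < C ∧ ∀ n : ℕ, 2 ≤ n →
      (c (n + 1) : ℝ) - c n ≤ C * (c n : ℝ) ^ (2 / 5 : ℝ) * Real.log (c n) ^ 2) ∧
    (∃ a C : ℝ, 0 < a ∧ 0 < C ∧ ∃ x0 : ℕ, ∀ x y : ℕ, x0 ≤ x →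
      C * (x : ℝ) ^ (2 / 5 : ℝ) * Real.log x ^ 2 ≤ y → y ≤ x →
        a * y / Real.log x ≤ ({m : ℕ | x < m ∧ m ≤ x + y ∧ IsCyclicNumber m}.ncard : ℝ)) := by
  refine ⟨H69.CU.all_n7, H69.CU.gap_all7, ?_⟩
  obtain ⟨c3, C3, hc3, hC3, x0, -, h⟩ := H69.CU.cyc_short7
  refine ⟨c3, C3, hc3, by linarith, x0, fun x y hx hy hyx => ?_⟩
  classical
  refine le_trans (h x y hx hy hyx) (le_of_eq ?_)
  have e : {m : ℕ | x < m ∧ m ≤ x + y ∧ IsCyclicNumber m} =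
      (((Finset.Ioc x (x + y)).filter H69.CY.IsCyclicNumber : Finset ℕ) : Set ℕ) := by
    ext m
    simp only [Set.mem_ofPred_eq, Finset.coe_filter, Finset.mem_Ioc]
    constructor
    · rintro ⟨h1, h2, h3⟩
      exact ⟨⟨h1, h2⟩, h3⟩
    · rintro ⟨⟨h1, h2⟩, h3⟩
      exact ⟨h1, h2, h3⟩
  rw [e, Set.ncard_coe_finset]

end Pool.Agent.Results.MP_a37e4a_nt.TwoFifths
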